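import Pool.Agent.H30.VR.Targets

/-!
# BLK: density increment
-/

set_option autoImplicit false

namespace Pool.Agent.H4.VR

open Finset Pool.Agent.H48.CE Pool.Agent.H30.VR

/-- partition of a set into sets of the same size -/
theorem blk_part {V : Type} (G : SimpleGraph V) (A₀ : Finset V) (q : ℕ) (hA₀ : A₀.card = q) :
    ∀ (n : ℕ) (A : Finset V), A.card = (n + 1) * q → A₀ ⊆ A →
      ∃ f : ℕ → Finset V, f 0 = A₀ ∧ (∀ i < n + 1, f i ⊆ A ∧ (f i).card = q) ∧
        ∀ B : Finset V, ee G A B = ∑ i ∈ range (n + 1), ee G (f i) B := by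
  classical
  intro n
  induction n with
  | zero =>
    intro A hA hs
    have h1 : A₀ = A := by
      apply Finset.eq_of_subset_of_card_le hs
      rw [hA, hA₀]
      simp
    refine ⟨fun _ => A₀, rfl, fun i _ => ⟨hs, hA₀⟩, fun B => ?_⟩
    rw [h1]
    simp
  | succ n ih =>
    intro A hA hs
    have h1 : (A \ A₀).card = (n + 1) * q := by
      rw [Finset.card_sdiff_of_subset hs, hA, hA₀]
      have : (n + 1 + 1) * q = (n + 1) * q + q := by ring
      omega
    have h2 : q ≤ (A \ A₀).card := by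
      rw [h1]
      exact Nat.le_mul_of_pos_left _ (by omega)
    obtain ⟨C, hC, hCq⟩ := Finset.exists_subset_card_eq h2
    have hCA : C ⊆ A := hC.trans Finset.sdiff_subset
    have hCd : Disjoint (A \ C) C := Finset.sdiff_disjoint
    obtain ⟨f, hf0, hf1, hf2⟩ := ih (A \ C) (by
      rw [Finset.card_sdiff_of_subset hCA, hA, hCq]
      have : (n + 1 + 1) * q = (n + 1) * q + q := by ring
      omega) (by
      intro v hv
      rw [Finset.mem_sdiff]
      refine ⟨hs hv, fun h => ?_⟩
      have h3 := hC h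
      rw [Finset.mem_sdiff] at h3
      exact h3.2 hv)
    refine ⟨Function.update f (n + 1) C, ?_, ?_, ?_⟩
    · rw [Function.update_of_ne (by omega)]
      exact hf0
    · intro i hi
      by_cases h : i = n + 1
      · rw [h, Function.update_self]
        exact ⟨hCA, hCq⟩
      · rw [Function.update_of_ne h]
        obtain ⟨g1, g2⟩ := hf1 i (by omega)
        exact ⟨g1.trans Finset.sdiff_subset, g2⟩
    · intro B
      rw [Finset.sum_range_succ, Function.update_self]
      have h4 : ∑ i ∈ range (n + 1), ee G (Function.update f (n + 1) C i) B =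
          ∑ i ∈ range (n + 1), ee G (f i) B := by
        refine Finset.sum_congr rfl fun i hi => ?_
        rw [Finset.mem_range] at hi
        rw [Function.update_of_ne (by omega)]
      rw [h4, ← hf2 B, ← ee_union_left hCd, Finset.sdiff_union_of_subset hCA]

theorem pf_BLK : T_BLK := by
  classical
  intro V G A B A₀ B₀ δ r q hr hq hδ hA hB hA₀ hB₀ hA₀q hB₀q hd hs
  obtain ⟨n, rfl⟩ : ∃ n, r = n + 1 := ⟨r - 1, by omega⟩
  obtain ⟨f, hf0, hf1, hf2⟩ := blk_part G A₀ q hA₀q n A hA hA₀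
  obtain ⟨g, hg0, hg1, hg2⟩ := blk_part G B₀ q hB₀q n B hB hB₀
  by_contra hcon
  push Not at hcon
  have hrr : (2 : ℝ) ≤ ((n + 1 : ℕ) : ℝ) := by exact_mod_cast hr
  have hqr : (1 : ℝ) ≤ (q : ℝ) := by exact_mod_cast hq
  set r : ℝ := ((n + 1 : ℕ) : ℝ) with hrdef
  have h1 : ∀ i < n + 1, ∀ j < n + 1,
      (ee G (f i) (g j) : ℝ) < δ * (1 + 1 / (2 * r ^ 2)) * q * q := by
    intro i hi j hj
    exact hcon (f i) (hf1 i hi).1 (g j) (hg1 j hj).1 (hf1 i hi).2 (hg1 j hj).2
  have h2 : (ee G A B : ℝ) = ∑ p ∈ range (n + 1) ×ˢ range (n + 1), (ee G (f p.1) (g p.2) : ℝ) := by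
    rw [Finset.sum_product, hf2 B]
    push_cast
    refine Finset.sum_congr rfl fun i _ => ?_
    rw [ee_comm, hg2 (f i)]
    push_cast
    refine Finset.sum_congr rfl fun j _ => ?_
    rw [ee_comm]
  have h00 : ((0, 0) : ℕ × ℕ) ∈ range (n + 1) ×ˢ range (n + 1) := by
    rw [Finset.mem_product, Finset.mem_range]
    exact ⟨by omega, by omega⟩
  rw [← Finset.add_sum_erase _ _ h00] at h2
  have h3 : ∑ p ∈ (range (n + 1) ×ˢ range (n + 1)).erase (0, 0), (ee G (f p.1) (g p.2) : ℝ) ≤
      (r ^ 2 - 1) * (δ * (1 + 1 / (2 * r ^ 2)) * q * q) := by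
    have h4 : ∑ p ∈ (range (n + 1) ×ˢ range (n + 1)).erase (0, 0), (ee G (f p.1) (g p.2) : ℝ) ≤
        ∑ _p ∈ (range (n + 1) ×ˢ range (n + 1)).erase (0, 0),
          (δ * (1 + 1 / (2 * r ^ 2)) * q * q) := by
      apply Finset.sum_le_sum
      intro p hp
      have hp' := Finset.mem_of_mem_erase hp
      rw [Finset.mem_product, Finset.mem_range, Finset.mem_range] at hp'
      exact (h1 _ hp'.1 _ hp'.2).le
    rw [Finset.sum_const, Finset.card_erase_of_mem h00, Finset.card_product, Finset.card_range,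
      nsmul_eq_mul] at h4
    refine h4.trans (le_of_eq ?_)
    congr 1
    rw [Nat.cast_sub (by nlinarith), Nat.cast_mul, hrdef]
    push_cast
    ring
  have h5 : (ee G (f 0) (g 0) : ℝ) < δ / 2 * q * q := by
    rw [hf0, hg0]
    exact hs
  have h6 : (ee G A B : ℝ) < δ / 2 * q * q + (r ^ 2 - 1) * (δ * (1 + 1 / (2 * r ^ 2)) * q * q) := by
    rw [h2]
    exact add_lt_add_of_lt_of_le h5 h3
  have hAr : (A.card : ℝ) = r * q := by
    rw [hA, hrdef]
    push_cast
    ring
  have hBr : (B.card : ℝ) = r * q := by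
    rw [hB, hrdef]
    push_cast
    ring
  rw [hAr, hBr] at hd
  have h7 : δ / 2 * q * q + (r ^ 2 - 1) * (δ * (1 + 1 / (2 * r ^ 2)) * q * q) =
      δ * (r * q) * (r * q) - δ * q * q / (2 * r ^ 2) := by
    field_simp
    ring
  have h8 : 0 < δ * q * q / (2 * r ^ 2) := by positivity
  linarith

end Pool.Agent.H4.VR
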